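import Pool.Agent.H547.CW.Stm

set_option autoImplicit false

/-!
`S_8` of `Pool.Agent.H547.CW.Stm` (from `S_9b`).
-/

namespace Pool.Agent.H341.CW64

open Finset Pool.Agent.R439.PL Pool.Agent.H547 Pool.Agent.H547.CV Pool.Agent.H547.CW
open scoped Nat

theorem w_zero : w 0 = 1 := by simp [w]

theorem w_succ (k : ℕ) : (2 * (k : ℚ) + 2) * w (k + 1) = (2 * k + 1) * w k := by
  have h := Nat.succ_mul_centralBinom_succ k
  have h' : ((k : ℚ) + 1) * (Nat.centralBinom (k + 1) : ℚ) =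
      2 * (2 * (k : ℚ) + 1) * (Nat.centralBinom k : ℚ) := by exact_mod_cast h
  unfold w
  rw [pow_succ]
  have h4 : (4 : ℚ) ^ k ≠ 0 := by positivity
  field_simp
  linear_combination 2 * h'

/-- the sum `A(M)` -/
def A (M : ℕ) : ℚ := ∑ k ∈ range (M + 1), w k ^ 2 / (2 * (M : ℚ) + 1 - 2 * k)

/-- the telescoping term -/
def V (M k : ℕ) : ℚ := 4 * (k : ℚ) ^ 2 * w k ^ 2 / (2 * (M : ℚ) + 3 - 2 * k)

theorem tel {M k : ℕ} (h : k ≤ M) :
    w k ^ 2 * ((2 * (M : ℚ) + 3) ^ 2 / (2 * (M : ℚ) + 3 - 2 * k) -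
      (2 * (M : ℚ) + 2) ^ 2 / (2 * (M : ℚ) + 1 - 2 * k)) = V M k - V M (k + 1) := by
  have hk : (k : ℚ) ≤ M := by exact_mod_cast h
  have h1 : (2 * (M : ℚ) + 1 - 2 * k) ≠ 0 := by
    have : (0 : ℚ) < 2 * (M : ℚ) + 1 - 2 * k := by linarith
    exact this.ne'
  have h3 : (2 * (M : ℚ) + 3 - 2 * k) ≠ 0 := by
    have : (0 : ℚ) < 2 * (M : ℚ) + 3 - 2 * k := by linarith
    exact this.ne'
  have e : V M (k + 1) = (2 * (k : ℚ) + 1) ^ 2 * w k ^ 2 / (2 * (M : ℚ) + 1 - 2 * k) := by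
    unfold V
    have e1 : (2 * (M : ℚ) + 3 - 2 * ((k + 1 : ℕ) : ℚ)) = 2 * (M : ℚ) + 1 - 2 * k := by
      push_cast; ring
    rw [e1]
    congr 1
    rw [← mul_pow, ← w_succ]
    push_cast
    ring
  rw [e]
  unfold V
  field_simp
  ring

theorem step (M : ℕ) : (2 * (M : ℚ) + 3) ^ 2 * A (M + 1) - (2 * (M : ℚ) + 2) ^ 2 * A M =
    (4 * M + 5) * w (M + 1) ^ 2 := by
  have h : ∑ k ∈ range (M + 1), w k ^ 2 * ((2 * (M : ℚ) + 3) ^ 2 / (2 * (M : ℚ) + 3 - 2 * k) -
      (2 * (M : ℚ) + 2) ^ 2 / (2 * (M : ℚ) + 1 - 2 * k)) = V M 0 - V M (M + 1) := by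
    rw [← sum_range_sub' (fun k => V M k)]
    exact sum_congr rfl fun k hk => tel (by have := mem_range.1 hk; omega)
  have e1 : A (M + 1) = ∑ k ∈ range (M + 1), w k ^ 2 / (2 * (M : ℚ) + 3 - 2 * k) +
      w (M + 1) ^ 2 := by
    unfold A
    rw [sum_range_succ]
    have e2 : (2 * ((M + 1 : ℕ) : ℚ) + 1) = 2 * (M : ℚ) + 3 := by push_cast; ring
    rw [e2]
    congr 1
    have e3 : 2 * (M : ℚ) + 3 - 2 * ((M + 1 : ℕ) : ℚ) = 1 := by push_cast; ring
    rw [e3, div_one]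
  have e4 : (2 * (M : ℚ) + 3) ^ 2 * ∑ k ∈ range (M + 1), w k ^ 2 / (2 * (M : ℚ) + 3 - 2 * k) -
      (2 * (M : ℚ) + 2) ^ 2 * A M = V M 0 - V M (M + 1) := by
    rw [← h]
    unfold A
    rw [mul_sum, mul_sum, ← sum_sub_distrib]
    refine sum_congr rfl fun k _ => ?_
    ring
  have e5 : V M 0 = 0 := by simp [V]
  have e6 : V M (M + 1) = (2 * (M : ℚ) + 2) ^ 2 * w (M + 1) ^ 2 := by
    unfold V
    have e3 : 2 * (M : ℚ) + 3 - 2 * ((M + 1 : ℕ) : ℚ) = 1 := by push_cast; ring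
    rw [e3, div_one]
    push_cast
    ring
  rw [e1]
  rw [e5, e6] at e4
  linear_combination e4

theorem exact_id (M : ℕ) : ∑ i ∈ range (M + 1), (4 * (i : ℚ) + 1) * w i ^ 4 =
    (2 * (M : ℚ) + 1) ^ 2 * w M ^ 2 * A M := by
  induction M with
  | zero => simp [A, w_zero]
  | succ M ih =>
    rw [sum_range_succ, ih]
    have h1 := step M
    have h2 := w_succ M
    have h3 : (2 * (M : ℚ) + 1) ^ 2 * w M ^ 2 = (2 * (M : ℚ) + 2) ^ 2 * w (M + 1) ^ 2 := by
      rw [← mul_pow, ← mul_pow, h2]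
    rw [h3]
    push_cast
    linear_combination (-w (M + 1) ^ 2) * h1

variable {p : ℕ} [hp : Fact p.Prime]

/-- the rational `x` reduces to `a` -/
def R (p : ℕ) [Fact p.Prime] (x : ℚ) (a : ZMod p) : Prop :=
  ∃ n d : ℤ, (d : ZMod p) ≠ 0 ∧ x = n / d ∧ a = (n : ZMod p) / (d : ZMod p)

theorem dne {d : ℤ} (h : (d : ZMod p) ≠ 0) : (d : ℚ) ≠ 0 := by
  intro h0
  apply h
  have : d = 0 := by exact_mod_cast h0
  rw [this]; simp

theorem R.zero : R p 0 0 := ⟨0, 1, by simp, by simp, by simp⟩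

theorem R.add {x y : ℚ} {a b : ZMod p} (hx : R p x a) (hy : R p y b) : R p (x + y) (a + b) := by
  obtain ⟨n, d, hd, rfl, rfl⟩ := hx
  obtain ⟨m, e, he, rfl, rfl⟩ := hy
  refine ⟨n * e + d * m, d * e, ?_, ?_, ?_⟩
  · push_cast; exact mul_ne_zero hd he
  · push_cast; exact div_add_div _ _ (dne hd) (dne he)
  · push_cast; exact div_add_div _ _ hd he

theorem R.sum {ι : Type*} {s : Finset ι} {f : ι → ℚ} {g : ι → ZMod p}
    (h : ∀ i ∈ s, R p (f i) (g i)) : R p (∑ i ∈ s, f i) (∑ i ∈ s, g i) := by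
  classical
  induction s using Finset.induction_on with
  | empty => simpa using R.zero
  | insert a s ha ih =>
    rw [sum_insert ha, sum_insert ha]
    exact (h a (mem_insert_self _ _)).add (ih fun i hi => h i (mem_insert_of_mem hi))

theorem R.I {x : ℚ} (h : R p x 0) : I p 1 x := by
  obtain ⟨n, d, hd, rfl, h⟩ := h
  have hn : (n : ZMod p) = 0 := by
    rcases div_eq_zero_iff.1 h.symm with h | h
    · exact h
    · exact absurd h hd
  have hdvd : (p : ℤ) ∣ n := (ZMod.intCast_zmod_eq_zero_iff_dvd n p).1 hn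
  have hnd : ¬ (p : ℤ) ∣ d := fun h' => hd ((ZMod.intCast_zmod_eq_zero_iff_dvd d p).2 h')
  obtain ⟨c, rfl⟩ := hdvd
  refine ⟨(c : ℚ) / d, ⟨c, d, hnd, rfl⟩, ?_⟩
  push_cast
  ring

theorem term_R {M j : ℕ} (hM : p = 4 * M + 3) (hj : j ≤ M) :
    R p (w j ^ 2 / (4 * (j : ℚ) + 1))
      ((Nat.centralBinom j : ZMod p) ^ 2 / 16 ^ j / (4 * (j : ZMod p) + 1)) := by
  have hpp := hp.out
  have h2 : (2 : ZMod p) ≠ 0 := by
    intro h
    have : ((2 : ℕ) : ZMod p) = 0 := by exact_mod_cast h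
    rw [ZMod.natCast_eq_zero_iff] at this
    have := Nat.le_of_dvd (by norm_num) this
    omega
  have h16 : (16 : ZMod p) ≠ 0 := by
    have : (16 : ZMod p) = 2 ^ 4 := by norm_num
    rw [this]; exact pow_ne_zero _ h2
  have hj1 : (4 * (j : ZMod p) + 1) ≠ 0 := by
    intro h
    have : ((4 * j + 1 : ℕ) : ZMod p) = 0 := by push_cast; exact h
    rw [ZMod.natCast_eq_zero_iff] at this
    have := Nat.le_of_dvd (by omega) this
    omega
  refine ⟨(Nat.centralBinom j : ℤ) ^ 2, 16 ^ j * (4 * (j : ℤ) + 1), ?_, ?_, ?_⟩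
  · push_cast
    exact mul_ne_zero (pow_ne_zero _ h16) hj1
  · unfold w
    push_cast
    rw [div_pow, ← pow_mul, mul_comm j 2, pow_mul]
    norm_num
    rw [div_div]
  · push_cast
    rw [div_div]

theorem hw_I {M : ℕ} (hM : p = 4 * M + 3) (h3 : 3 < p) (h : S_9b) :
    I p 1 (∑ j ∈ range (M + 1), w j ^ 2 / (4 * (j : ℚ) + 1)) := by
  apply R.I
  have h9 := h p M hM h3
  rw [← h9]
  exact R.sum fun j hj => term_R hM (by have := mem_range.1 hj; omega)

theorem w_unit {M : ℕ} (hM : p = 4 * M + 3) {k : ℕ} (hk : k ≤ M) : U p (w k) := by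
  induction k with
  | zero => rw [w_zero]; exact U.one
  | succ k ih =>
    have h1 := w_succ k
    have u1 : U p (2 * (k : ℚ) + 2) := by
      have := uNat (p := p) (k := 2 * k + 2) (by omega) (by omega)
      push_cast at this; exact this
    have u2 : U p (2 * (k : ℚ) + 1) := by
      have := uNat (p := p) (k := 2 * k + 1) (by omega) (by omega)
      push_cast at this; exact this
    have e : w (k + 1) = (2 * (k : ℚ) + 1) * w k / (2 * (k : ℚ) + 2) := by
      rw [eq_div_iff u1.1, ← h1]; ring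
    rw [e]
    exact (u2.mul (ih (by omega))).div u1

theorem u4j {M : ℕ} (hM : p = 4 * M + 3) {s : ℕ} (hs : s ≤ M) : U p (4 * (s : ℚ) + 1) := by
  have := uNat (p := p) (k := 4 * s + 1) (by omega) (by omega)
  push_cast at this; exact this

theorem comb {a b P W : ℚ} (ha : a ≠ 0) (hb : b ≠ 0) (h : P = 2 * a + b) :
    P * (W * (a⁻¹ * b⁻¹)) = W / a + 2 * (W / b) := by
  rw [h]; field_simp; ring

theorem A_I {M : ℕ} (hM : p = 4 * M + 3) (h3 : 3 < p) (h : S_9b) : I p 1 (A M) := by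
  have h1 := (hw_I hM h3 h).mulL (nm (p := p) 2)
  have h2 : I p 1 (∑ k ∈ range (M + 1),
      (w k ^ 2 / (2 * (M : ℚ) + 1 - 2 * k) + 2 * (w k ^ 2 / (4 * (k : ℚ) + 1)))) := by
    refine I.sum fun k hk => ?_
    have hk' : k ≤ M := by have := mem_range.1 hk; omega
    have u1 := u4j hM hk'
    have u2 : U p (2 * (M : ℚ) + 1 - 2 * k) := by
      have := uNat (p := p) (k := 2 * M + 1 - 2 * k) (by omega) (by omega)
      rw [Nat.cast_sub (by omega)] at this
      push_cast at this; exact this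
    have u3 := w_unit hM hk'
    refine icg ((I_p (p := p)).mulR (y := w k ^ 2 * ((2 * (M : ℚ) + 1 - 2 * k)⁻¹ *
      (4 * (k : ℚ) + 1)⁻¹)) (mul_mem (pow_mem u3.2.1 2) (mul_mem u2.2.2 u1.2.2))) ?_
    have e : (p : ℚ) = 2 * (2 * (M : ℚ) + 1 - 2 * k) + (4 * (k : ℚ) + 1) := by
      rw [hM]; push_cast; ring
    exact comb u2.1 u1.1 e
  rw [sum_add_distrib, ← mul_sum] at h2
  refine icg (h2.sub h1) ?_
  unfold A
  ring

theorem sum_I {M : ℕ} (hM : p = 4 * M + 3) (h3 : 3 < p) (h : S_9b) :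
    I p 1 (∑ i ∈ range (M + 1), (4 * (i : ℚ) + 1) * w i ^ 4) := by
  rw [exact_id]
  refine (A_I hM h3 h).mulL ?_
  refine mul_mem (pow_mem ?_ 2) (pow_mem (w_unit hM le_rfl).2.1 2)
  have := nat_mem (p := p) (2 * M + 1)
  push_cast at this
  exact this

theorem po_succ (x : ℚ) (k : ℕ) : po x (k + 1) = po x k * (x + k) := by
  unfold po; rw [prod_range_succ]

theorem po54 (s : ℕ) : po (5 / 4) s = (4 * s + 1) * po (1 / 4) s := by
  induction s with
  | zero => simp [po]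
  | succ s ih =>
    rw [po_succ, po_succ, ih]
    push_cast
    ring

theorem q4 (hp2 : 2 < p) : (1 / 4 : ℚ) ∈ Zp p := by
  have := (((u2 (p := p) hp2).pow 2).inv).2.1
  norm_num at this
  norm_num
  exact this

theorem po_mem {x : ℚ} (hx : x ∈ Zp p) (k : ℕ) : po x k ∈ Zp p :=
  prod_mem fun i _ => add_mem hx (nat_mem i)

theorem po14_unit {M : ℕ} (hM : p = 4 * M + 3) (h3 : 3 < p) {s : ℕ} (hs : s ≤ M + 1) :
    U p (po (1 / 4) s) := by
  refine U.prod fun i hi => ?_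
  have hi' := mem_range.1 hi
  have u1 := u4j hM (s := i) (by omega)
  have u2 := ((u2 (p := p) (by omega)).pow 2).inv
  have e : (1 / 4 + (i : ℚ)) = (4 * (i : ℚ) + 1) * ((2 : ℚ) ^ 2)⁻¹ := by norm_num; ring
  rw [e]
  exact u1.mul u2

/-- `w (M - s) po(5/4) s ≡ w M po(3/4) s` -/
theorem key {M : ℕ} (hM : p = 4 * M + 3) (h3 : 3 < p) {s : ℕ} (hs : s ≤ M) :
    I p 1 (w (M - s) * po (5 / 4) s - w M * po (3 / 4) s) := by
  have h4 := q4 (p := p) (by omega)
  induction s with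
  | zero =>
    simp only [po, range_zero, prod_empty, Nat.sub_zero, sub_self]
    exact I.zero
  | succ s ih =>
    have ih := ih (by omega)
    obtain ⟨k, hk⟩ : ∃ k, M = s + 1 + k := ⟨M - (s + 1), by omega⟩
    have e1 : M - (s + 1) = k := by omega
    have e2 : M - s = k + 1 := by omega
    rw [e1]
    rw [e2] at ih
    have hw := w_succ k
    have ep : (p : ℚ) = 4 * ((s : ℚ) + 1 + k) + 3 := by rw [hM, hk]; push_cast; ring
    have m1 : (3 / 4 + (s : ℚ)) ∈ Zp p := by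
      have := add_mem (mul_mem (nm (p := p) 3) h4) (nat_mem (p := p) s)
      have e : (3 / 4 + (s : ℚ)) = 3 * (1 / 4) + s := by ring
      rw [e]; exact this
    have m5 : (5 / 4 : ℚ) ∈ Zp p := by
      have := mul_mem (nm (p := p) 5) h4
      have e : (5 / 4 : ℚ) = 5 * (1 / 4) := by ring
      rw [e]; exact this
    have wk : w k ∈ Zp p := (w_unit hM (by omega)).2.1
    have wk1 : w (k + 1) ∈ Zp p := (w_unit hM (by omega)).2.1
    have t1 := ih.mulR m1
    have t2 : I p 1 ((p : ℚ) * ((w k - w (k + 1)) * (1 / 4) * po (5 / 4) s)) :=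
      (I_p (p := p)).mulR (mul_mem (mul_mem (sub_mem wk wk1) h4) (po_mem m5 s))
    refine icg (t1.add t2) ?_
    rw [po_succ, po_succ]
    rw [ep]
    linear_combination (po (5 / 4) s * (-1 / 2)) * hw

theorem eight (h : S_9b) : S_8 := by
  intro p M hp hM h3
  have h0 := sum_I hM h3 h
  rw [← sum_range_reflect] at h0
  have hwM := (w_unit hM (le_refl M))
  have h1 : I p 1 (∑ s ∈ range (M + 1), ((4 * ((M + 1 - 1 - s : ℕ) : ℚ) + 1) *
      w (M + 1 - 1 - s) ^ 4 + w M ^ 4 * ((4 * (s : ℚ) + 2) * tau s ^ 2 / (4 * s + 1) ^ 4))) := by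
    refine I.sum fun s hs => ?_
    have hs' : s ≤ M := by have := mem_range.1 hs; omega
    have e1 : M + 1 - 1 - s = M - s := by omega
    rw [e1]
    have k1 := key hM h3 hs'
    rw [po54] at k1
    have u1 := u4j hM hs'
    have u2 := po14_unit hM h3 (s := s) (by omega)
    have u3 := u1.mul u2
    have k2 := k1.mulR u3.2.2
    have n1 := u1.1
    have n2 := u2.1
    set X : ℚ := w M * po (3 / 4) s / ((4 * s + 1) * po (1 / 4) s) with hX
    have k3 : I p 1 (w (M - s) - X) := by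
      refine icg k2 ?_
      rw [hX]
      field_simp
    have hwm : w (M - s) ∈ Zp p := (w_unit hM (by omega)).2.1
    have hXm : X ∈ Zp p := by
      have := sub_mem hwm k3.mem
      rwa [sub_sub_cancel] at this
    have k4 : EQ p 1 (w (M - s) ^ 4) (X ^ 4) := EQ.pow ⟨hwm, hXm, k3⟩ 4
    have hc : (M - s : ℕ) = (M : ℚ) - s := by rw [Nat.cast_sub hs']
    have m1 : (4 * ((M - s : ℕ) : ℚ) + 1) ∈ Zp p := by
      have := nat_mem (p := p) (4 * (M - s) + 1)
      push_cast at this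
      exact this
    have k5 := k4.2.2.mulL m1
    have k6 : I p 1 ((p : ℚ) * X ^ 4) := (I_p (p := p)).mulR (pow_mem hXm 4)
    have ep : (p : ℚ) = 4 * M + 3 := by rw [hM]; push_cast; ring
    have e4 : w M ^ 4 * ((4 * (s : ℚ) + 2) * tau s ^ 2 / (4 * s + 1) ^ 4) =
        (4 * (s : ℚ) + 2) * X ^ 4 := by
      rw [hX]
      unfold tau
      field_simp
    rw [e4]
    refine icg (k5.add k6) ?_
    rw [ep, hc]
    ring
  rw [sum_add_distrib, ← mul_sum] at h1
  have h2 := h1.sub h0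
  rw [add_sub_cancel_left] at h2
  exact (hwM.pow 4).cancel h2

end Pool.Agent.H341.CW64
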